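import Pool.Agent.W770.KP.Stm

set_option autoImplicit false

open scoped Classical

namespace Pool.Agent.W991.KP

open Pool.Agent.W770.KP

theorem t_ABS : S_GR → S_LEV → S_ZS → S_PRN → S_ABS := by
  intro hGR hLEV hZS hPRN n k hk hkn
  obtain ⟨zs1, zs2⟩ := hZS
  have hK2pos : 0 < (4:ℝ) ^ (k + 2) := by positivity
  refine ⟨48 * ((4:ℝ) ^ (k + 2)) ^ n * (4:ℝ) ^ (k+1), by positivity, ?_⟩
  intro ι X _ _ V A hA H f hf
  obtain ⟨Λ, S, hne, hS, hcov, hdisj, hG⟩ := hLEV n k X f hf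
  generalize hGdef : ∑ x : X, (f x) ^ (((n:ℝ) + 1) / ((k:ℝ) + 1)) = G at hG ⊢
  have hG0 : 0 ≤ G := by
    rw [← hGdef]
    exact Finset.sum_nonneg fun x _ => Real.rpow_nonneg (hf x) _
  let T : ι → ℝ := fun i => ∑ x ∈ V i, f x
  have hT0 : ∀ i, 0 ≤ T i := fun i => Finset.sum_nonneg fun x _ => hf x
  show ∑ i : ι, (T i) ^ (n+1) ≤ _
  rcases Λ.eq_empty_or_nonempty with hΛ | hΛ
  · have hf0 : ∀ x, f x = 0 := by
      intro x
      by_contra hne'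
      obtain ⟨l, hl, _⟩ := hcov x (lt_of_le_of_ne (hf x) (Ne.symm hne'))
      rw [hΛ] at hl
      exact absurd hl (Finset.notMem_empty l)
    have h0 : ∑ i : ι, (T i) ^ (n+1) = 0 := by
      refine Finset.sum_eq_zero fun i _ => ?_
      have h1 : T i = 0 := Finset.sum_eq_zero fun x _ => hf0 x
      rw [h1, zero_pow (Nat.succ_ne_zero n)]
    rw [h0]
    positivity
  let g : ℤ → ℝ := fun l => (4:ℝ) ^ (l * ((n:ℤ) + 1)) * ((S l).card : ℝ)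
  have hg0 : ∀ l, 0 ≤ g l := fun l => mul_nonneg (by positivity) (Nat.cast_nonneg _)
  have hgpos : ∀ l ∈ Λ, 0 < g l := fun l hl =>
    mul_pos (by positivity) (by exact_mod_cast (hne l hl).card_pos)
  obtain ⟨Gt, hGt⟩ : ∃ Gt, Gt = ∑ l ∈ Λ, g l := ⟨_, rfl⟩
  have hGtpos : 0 < Gt := by
    rw [hGt]
    exact Finset.sum_pos hgpos hΛ
  have hGtG : Gt ≤ G := by
    rw [hGt]
    exact hG
  let c : ℤ → ℝ := fun l => g l / (2 * Gt)
  have hcg : ∀ l, c l * (2 * Gt) = g l := fun l => div_mul_cancel₀ _ (by positivity)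
  have hc0 : ∀ l, 0 ≤ c l := fun l => div_nonneg (hg0 l) (by positivity)
  have hcsum : ∑ l ∈ Λ, c l ≤ 1 / 2 := by
    have : ∑ l ∈ Λ, c l = Gt / (2 * Gt) := by
      rw [hGt, Finset.sum_div, ← hGt]
    rw [this, div_le_div_iff₀ (by positivity) (by norm_num)]
    linarith
  let I : ℤ → Finset ι := fun l => Finset.univ.filter (fun i => 0 < T i ∧
    c l * T i ≤ (4:ℝ) ^ ((l+1) * ((k:ℤ) + 1)) * ((V i ∩ S l).card : ℝ))
  let st : ι → ℤ := fun i => Int.log 2 (T i)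
  choose Q hQI hQ1 hQ2 using fun l => hGR ι X (I l) (fun i => V i ∩ S l) (S l)
    (fun i _ => Finset.inter_subset_right) st
  let P : ℤ → ℤ → Finset ι := fun s l => (Q l).filter (fun j => s ≤ st j)
  let B : ℤ → ℤ → Finset X := fun s l => (S l).filter (fun x => ∃ j ∈ P s l, x ∈ V j)
  let U : ℤ → ι → ℝ := fun s i => ∑ x ∈ V i, ∑ l ∈ Λ,
    if x ∈ B s l then (4:ℝ) ^ (l * ((k:ℤ) + 1)) else 0
  have hU0 : ∀ s i, 0 ≤ U s i := fun s i => Finset.sum_nonneg fun x _ =>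
    Finset.sum_nonneg fun l _ => by split_ifs <;> positivity
  let R : ℤ → ℝ := fun s => ∑ l ∈ Λ, g l * ∑ l' ∈ Λ, (2:ℝ) ^ (-|l - l'|) *
    (4:ℝ) ^ (l' * ((n:ℤ) - (k:ℤ))) * ((P s l').card : ℝ)
  have hH : ∀ s, ∑ i : ι, (U s i) ^ n ≤ A * Gt ^ (k-1) * R s := by
    intro s
    have h1 := H Λ (P s) (B s) (fun l _ x hx => (Finset.mem_filter.1 hx).2) g (fun l _ =>
      mul_le_mul_of_nonneg_left (by exact_mod_cast Finset.card_le_card (Finset.filter_subset _ _))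
        (by positivity))
    rw [hGt]
    exact h1
  have hU : ∀ i, T i ≤ (4:ℝ) ^ (k + 2) * U (st i) i := by
    intro i
    rcases (hT0 i).eq_or_lt with h0 | h0
    · rw [← h0]
      exact mul_nonneg hK2pos.le (hU0 _ _)
    refine hPRN k ι X V f hf Λ S hS hcov hdisj c (fun l _ => hc0 l) hcsum (B (st i)) i ?_
    intro l _ hcl
    have hiI : i ∈ I l := Finset.mem_filter.2 ⟨Finset.mem_univ _, h0, hcl⟩
    refine (hQ1 l i hiI).trans (Nat.mul_le_mul_left 2 (Finset.card_le_card ?_))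
    intro x hx
    obtain ⟨hx1, j, hj, hst, hxj⟩ := Finset.mem_filter.1 hx
    have hx2 := Finset.mem_inter.1 hx1
    exact Finset.mem_inter.2 ⟨hx2.1, Finset.mem_filter.2 ⟨hx2.2, j,
      Finset.mem_filter.2 ⟨hj, hst⟩, (Finset.mem_inter.1 hxj).1⟩⟩
  have hstage : ∀ s : ℤ, ∑ i ∈ Finset.univ.filter (fun i => st i = s), T i ^ n ≤
      ((4:ℝ) ^ (k + 2)) ^ n * (A * Gt ^ (k-1) * R s) := by
    intro s
    calc ∑ i ∈ Finset.univ.filter (fun i => st i = s), T i ^ n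
        ≤ ∑ i ∈ Finset.univ.filter (fun i => st i = s), ((4:ℝ) ^ (k + 2) * U s i) ^ n := by
          refine Finset.sum_le_sum fun i hi => ?_
          have hs : st i = s := (Finset.mem_filter.1 hi).2
          rw [← hs]
          exact pow_le_pow_left₀ (hT0 i) (hU i) n
      _ ≤ ∑ i : ι, ((4:ℝ) ^ (k + 2) * U s i) ^ n :=
          Finset.sum_le_sum_of_subset_of_nonneg (Finset.filter_subset _ _)
            fun i _ _ => pow_nonneg (mul_nonneg hK2pos.le (hU0 _ _)) _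
      _ = ((4:ℝ) ^ (k + 2)) ^ n * ∑ i : ι, (U s i) ^ n := by
          rw [Finset.mul_sum]
          exact Finset.sum_congr rfl fun i _ => mul_pow _ _ _
      _ ≤ _ := mul_le_mul_of_nonneg_left (hH s) (by positivity)
  let St : Finset ℤ := Finset.univ.image st
  have hTs : ∀ i, T i ≤ 2 * (2:ℝ) ^ (st i) := by
    intro i
    have h1 := (Int.lt_zpow_succ_log_self (b := 2) one_lt_two (T i)).le
    have h2 : ((2:ℕ):ℝ) ^ (Int.log 2 (T i) + 1) = 2 * (2:ℝ) ^ (st i) := by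
      rw [zpow_add_one₀ (by norm_num)]
      push_cast
      ring
    rw [h2] at h1
    exact h1
  have hsum1 : ∑ i : ι, (T i) ^ (n+1) ≤
      2 * ((4:ℝ) ^ (k + 2)) ^ n * A * Gt ^ (k-1) * ∑ s ∈ St, (2:ℝ) ^ s * R s := by
    calc ∑ i : ι, (T i) ^ (n+1)
        = ∑ s ∈ St, ∑ i ∈ Finset.univ.filter (fun i => st i = s), (T i) ^ (n+1) :=
          (Finset.sum_fiberwise_of_maps_to (fun i _ => Finset.mem_image_of_mem _
            (Finset.mem_univ i)) _).symm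
      _ ≤ ∑ s ∈ St, (2 * (2:ℝ) ^ s) * (((4:ℝ) ^ (k + 2)) ^ n * (A * Gt ^ (k-1) * R s)) := by
          refine Finset.sum_le_sum fun s _ => ?_
          refine le_trans ?_ (mul_le_mul_of_nonneg_left (hstage s) (by positivity))
          rw [Finset.mul_sum]
          refine Finset.sum_le_sum fun i hi => ?_
          have hs : st i = s := (Finset.mem_filter.1 hi).2
          rw [← hs, pow_succ, mul_comm]
          exact mul_le_mul_of_nonneg_right (hTs i) (pow_nonneg (hT0 i) n)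
      _ = _ := by
          rw [Finset.mul_sum]
          refine Finset.sum_congr rfl fun s _ => ?_
          ring
  have hM : ∀ l' ∈ Λ, (4:ℝ) ^ (l' * ((n:ℤ) - (k:ℤ))) * ∑ s ∈ St, (2:ℝ) ^ s * ((P s l').card : ℝ) ≤
      8 * (4:ℝ) ^ (k+1) * Gt := by
    intro l' hl'
    have h1 := zs2 ι (Q l') st St
    have h2 : c l' * ∑ w ∈ Q l', (2:ℝ) ^ (st w) ≤
        (4:ℝ) ^ ((l'+1) * ((k:ℤ) + 1)) * (2 * ((S l').card : ℝ)) := by
      calc c l' * ∑ w ∈ Q l', (2:ℝ) ^ (st w)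
          ≤ ∑ w ∈ Q l', (4:ℝ) ^ ((l'+1) * ((k:ℤ) + 1)) * ((V w ∩ S l').card : ℝ) := by
            rw [Finset.mul_sum]
            refine Finset.sum_le_sum fun w hw => ?_
            obtain ⟨_, hw1, hw2⟩ := Finset.mem_filter.1 (hQI l' hw)
            refine le_trans (mul_le_mul_of_nonneg_left ?_ (hc0 l')) hw2
            have h3 := Int.zpow_log_le_self (b := 2) one_lt_two hw1
            exact_mod_cast h3
        _ = (4:ℝ) ^ ((l'+1) * ((k:ℤ) + 1)) * ((∑ w ∈ Q l', (V w ∩ S l').card : ℕ) : ℝ) := by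
            push_cast
            rw [Finset.mul_sum]
        _ ≤ _ := by
            refine mul_le_mul_of_nonneg_left ?_ (by positivity)
            exact_mod_cast hQ2 l'
    have hSpos : (0:ℝ) < ((S l').card : ℝ) := by exact_mod_cast (hne l' hl').card_pos
    obtain ⟨sg, hsg⟩ : ∃ sg, sg = ∑ w ∈ Q l', (2:ℝ) ^ (st w) := ⟨_, rfl⟩
    rw [← hsg] at h1 h2
    have h4 : g l' * sg ≤ (2 * Gt) * ((4:ℝ) ^ ((l'+1) * ((k:ℤ) + 1)) * (2 * ((S l').card : ℝ))) := by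
      rw [← hcg l', mul_comm (c l'), mul_assoc]
      exact mul_le_mul_of_nonneg_left h2 (by positivity)
    have e1 : (4:ℝ) ^ ((l'+1) * ((k:ℤ) + 1)) = (4:ℝ) ^ (k+1) * (4:ℝ) ^ (l' * ((k:ℤ) + 1)) := by
      rw [← zpow_natCast, ← zpow_add₀ (by norm_num)]
      congr 1
      push_cast
      ring
    have e2 : (4:ℝ) ^ (l' * ((n:ℤ) + 1)) =
        (4:ℝ) ^ (l' * ((n:ℤ) - (k:ℤ))) * (4:ℝ) ^ (l' * ((k:ℤ) + 1)) := by
      rw [← zpow_add₀ (by norm_num)]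
      congr 1
      ring
    have hp : 0 < (4:ℝ) ^ (l' * ((k:ℤ) + 1)) := by positivity
    have h5 : (4:ℝ) ^ (l' * ((n:ℤ) - (k:ℤ))) * sg ≤ 4 * (4:ℝ) ^ (k+1) * Gt := by
      have hpp : 0 < (4:ℝ) ^ (l' * ((k:ℤ) + 1)) * ((S l').card : ℝ) := mul_pos hp hSpos
      refine le_of_mul_le_mul_right ?_ hpp
      have h6 : g l' * sg = (4:ℝ) ^ (l' * ((n:ℤ) - (k:ℤ))) * sg *
          ((4:ℝ) ^ (l' * ((k:ℤ) + 1)) * ((S l').card : ℝ)) := by
        show (4:ℝ) ^ (l' * ((n:ℤ) + 1)) * ((S l').card : ℝ) * sg = _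
        rw [e2]
        ring
      rw [← h6]
      refine h4.trans (le_of_eq ?_)
      rw [e1]
      ring
    have h7 : (0:ℝ) ≤ (4:ℝ) ^ (l' * ((n:ℤ) - (k:ℤ))) := by positivity
    calc (4:ℝ) ^ (l' * ((n:ℤ) - (k:ℤ))) * ∑ s ∈ St, (2:ℝ) ^ s * ((P s l').card : ℝ)
        ≤ (4:ℝ) ^ (l' * ((n:ℤ) - (k:ℤ))) * (2 * sg) := mul_le_mul_of_nonneg_left h1 h7
      _ = 2 * ((4:ℝ) ^ (l' * ((n:ℤ) - (k:ℤ))) * sg) := by ring
      _ ≤ 2 * (4 * (4:ℝ) ^ (k+1) * Gt) := mul_le_mul_of_nonneg_left h5 (by norm_num)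
      _ = _ := by ring
  have hR : ∑ s ∈ St, (2:ℝ) ^ s * R s ≤ 3 * (8 * (4:ℝ) ^ (k+1) * Gt) * Gt := by
    have e1 : ∑ s ∈ St, (2:ℝ) ^ s * R s = ∑ l ∈ Λ, g l * ∑ l' ∈ Λ, (2:ℝ) ^ (-|l - l'|) *
        ((4:ℝ) ^ (l' * ((n:ℤ) - (k:ℤ))) * ∑ s ∈ St, (2:ℝ) ^ s * ((P s l').card : ℝ)) := by
      simp only [R, Finset.mul_sum]
      rw [Finset.sum_comm]
      refine Finset.sum_congr rfl fun l _ => ?_
      rw [Finset.sum_comm]
      refine Finset.sum_congr rfl fun l' _ => ?_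
      refine Finset.sum_congr rfl fun s _ => ?_
      ring
    rw [e1]
    calc ∑ l ∈ Λ, g l * ∑ l' ∈ Λ, (2:ℝ) ^ (-|l - l'|) *
        ((4:ℝ) ^ (l' * ((n:ℤ) - (k:ℤ))) * ∑ s ∈ St, (2:ℝ) ^ s * ((P s l').card : ℝ))
        ≤ ∑ l ∈ Λ, g l * (3 * (8 * (4:ℝ) ^ (k+1) * Gt)) := by
          refine Finset.sum_le_sum fun l _ => mul_le_mul_of_nonneg_left ?_ (hg0 l)
          calc ∑ l' ∈ Λ, (2:ℝ) ^ (-|l - l'|) *
              ((4:ℝ) ^ (l' * ((n:ℤ) - (k:ℤ))) * ∑ s ∈ St, (2:ℝ) ^ s * ((P s l').card : ℝ))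
              ≤ ∑ l' ∈ Λ, (2:ℝ) ^ (-|l - l'|) * (8 * (4:ℝ) ^ (k+1) * Gt) :=
                Finset.sum_le_sum fun l' hl' => mul_le_mul_of_nonneg_left (hM l' hl')
                  (by positivity)
            _ = (∑ l' ∈ Λ, (2:ℝ) ^ (-|l - l'|)) * (8 * (4:ℝ) ^ (k+1) * Gt) := by
                rw [Finset.sum_mul]
            _ ≤ _ := mul_le_mul_of_nonneg_right (zs1 Λ l) (by positivity)
      _ = _ := by
          rw [← Finset.sum_mul, ← hGt]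
          ring
  have hk1 : Gt ^ (k-1) * Gt * Gt = Gt ^ (k+1) := by
    rw [← pow_succ, ← pow_succ]
    congr 1
    omega
  calc ∑ i : ι, (T i) ^ (n+1)
      ≤ 2 * ((4:ℝ) ^ (k + 2)) ^ n * A * Gt ^ (k-1) * ∑ s ∈ St, (2:ℝ) ^ s * R s := hsum1
    _ ≤ 2 * ((4:ℝ) ^ (k + 2)) ^ n * A * Gt ^ (k-1) * (3 * (8 * (4:ℝ) ^ (k+1) * Gt) * Gt) :=
        mul_le_mul_of_nonneg_left hR (by positivity)
    _ = 48 * ((4:ℝ) ^ (k + 2)) ^ n * (4:ℝ) ^ (k+1) * A * (Gt ^ (k-1) * Gt * Gt) := by ring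
    _ = 48 * ((4:ℝ) ^ (k + 2)) ^ n * (4:ℝ) ^ (k+1) * A * Gt ^ (k+1) := by rw [hk1]
    _ ≤ 48 * ((4:ℝ) ^ (k + 2)) ^ n * (4:ℝ) ^ (k+1) * A * G ^ (k+1) :=
        mul_le_mul_of_nonneg_left (pow_le_pow_left₀ hGtpos.le hGtG _) (by positivity)

end Pool.Agent.W991.KP
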